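import Pool.Agent.Lib.MP_0a5adf_nt.TP.Interfaces

/-!
Module DYN of TAO+ (helper30).
-/

set_option autoImplicit false

namespace Pool.Agent.Lib.MP_0a5adf_nt.H30

open Finset Pool.Agent.Lib.MP_0a5adf_nt.TP

theorem two_T_even (d : Bool) {N : ℕ} (h : N % 2 = 0) : 2 * (T d N : ℤ) = N := by
  unfold T
  rw [if_pos h]
  have : 2 * (N / 2) = N := by omega
  exact_mod_cast this

theorem two_T_odd (d : Bool) {N : ℕ} (h : N % 2 = 1) : 2 * (T d N : ℤ) = 3 * N + sg d := by
  unfold T sg
  rw [if_neg (by omega)]
  cases d with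
  | true =>
    simp only [if_true]
    have : 2 * ((3 * N + 1) / 2) = 3 * N + 1 := by omega
    exact_mod_cast this
  | false =>
    simp only [Bool.false_eq_true, if_false]
    have : 2 * ((3 * N - 1) / 2) + 1 = 3 * N := by omega
    have h2 : 2 * (((3 * N - 1) / 2 : ℕ) : ℤ) + 1 = 3 * N := by exact_mod_cast this
    linarith

theorem par_subset (d : Bool) (N i : ℕ) : par d N i ⊆ Icc 1 i := filter_subset _ _

theorem par_succ_even (d : Bool) {N : ℕ} (i : ℕ) (h : N % 2 = 0) :
    par d N (i + 1) = par d (T d N) i := by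
  ext x
  simp only [par, mem_filter, mem_Icc]
  constructor
  · rintro ⟨⟨h1, h2⟩, h3⟩
    have hx : x ≤ i := by
      by_contra hx
      have : x = i + 1 := by omega
      subst this
      simp at h3
      omega
    refine ⟨⟨h1, hx⟩, ?_⟩
    rw [show i + 1 - x = (i - x) + 1 by omega, Function.iterate_succ_apply] at h3
    exact h3
  · rintro ⟨⟨h1, h2⟩, h3⟩
    refine ⟨⟨h1, by omega⟩, ?_⟩
    rw [show i + 1 - x = (i - x) + 1 by omega, Function.iterate_succ_apply]
    exact h3

theorem par_succ_odd (d : Bool) {N : ℕ} (i : ℕ) (h : N % 2 = 1) :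
    par d N (i + 1) = insert (i + 1) (par d (T d N) i) := by
  ext x
  simp only [par, mem_filter, mem_Icc, mem_insert]
  constructor
  · rintro ⟨⟨h1, h2⟩, h3⟩
    by_cases hx : x = i + 1
    · exact Or.inl hx
    · right
      refine ⟨⟨h1, by omega⟩, ?_⟩
      rw [show i + 1 - x = (i - x) + 1 by omega, Function.iterate_succ_apply] at h3
      exact h3
  · rintro (rfl | ⟨⟨h1, h2⟩, h3⟩)
    · exact ⟨⟨by omega, le_rfl⟩, by simpa using h⟩
    · refine ⟨⟨h1, by omega⟩, ?_⟩
      rw [show i + 1 - x = (i - x) + 1 by omega, Function.iterate_succ_apply]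
      exact h3

theorem num_succ {i : ℕ} {S : Finset ℕ} (hS : S ⊆ Icc 1 i) : num (i + 1) S = 2 * num i S := by
  unfold num
  rw [mul_sum]
  apply sum_congr rfl
  intro x hx
  have h1 := mem_Icc.1 (hS hx)
  rw [show i + 1 - x = (i - x) + 1 by omega, pow_succ]
  ring

theorem not_mem_top {i : ℕ} {S : Finset ℕ} (hS : S ⊆ Icc 1 i) : i + 1 ∉ S := by
  intro h
  have := mem_Icc.1 (hS h)
  omega

theorem rk_insert {i : ℕ} {S : Finset ℕ} {x : ℕ} (hx : x ≤ i) :
    rk (insert (i + 1) S) x = rk S x := by
  unfold rk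
  congr 1
  ext y
  simp only [mem_filter, mem_insert]
  constructor
  · rintro ⟨rfl | h1, h2⟩
    · omega
    · exact ⟨h1, h2⟩
  · rintro ⟨h1, h2⟩
    exact ⟨Or.inr h1, h2⟩

theorem rk_top {i : ℕ} {S : Finset ℕ} (hS : S ⊆ Icc 1 i) :
    rk (insert (i + 1) S) (i + 1) = S.card := by
  unfold rk
  congr 1
  ext y
  simp only [mem_filter, mem_insert]
  constructor
  · rintro ⟨rfl | h1, h2⟩
    · omega
    · exact h1
  · intro h1
    have := mem_Icc.1 (hS h1)
    exact ⟨Or.inr h1, by omega⟩

theorem num_insert {i : ℕ} {S : Finset ℕ} (hS : S ⊆ Icc 1 i) :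
    num (i + 1) (insert (i + 1) S) = 2 * num i S + 3 ^ S.card := by
  unfold num
  rw [sum_insert (not_mem_top hS), rk_top hS, Nat.sub_self, pow_zero, mul_one, add_comm, mul_sum]
  congr 1
  apply sum_congr rfl
  intro x hx
  have h1 := mem_Icc.1 (hS hx)
  rw [rk_insert h1.2, show i + 1 - x = (i - x) + 1 by omega, pow_succ]
  ring

theorem split_top {i : ℕ} {S : Finset ℕ} (hS : S ⊆ Icc 1 (i + 1)) :
    (S ⊆ Icc 1 i) ∨ ∃ S' : Finset ℕ, S' ⊆ Icc 1 i ∧ S = insert (i + 1) S' := by
  by_cases h : i + 1 ∈ S
  · right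
    refine ⟨S.erase (i + 1), ?_, (insert_erase h).symm⟩
    intro x hx
    have h1 := mem_Icc.1 (hS (mem_of_mem_erase hx))
    have h2 := ne_of_mem_erase hx
    rw [mem_Icc]
    omega
  · left
    intro x hx
    have h1 := mem_Icc.1 (hS hx)
    have h2 : x ≠ i + 1 := by rintro rfl; exact h hx
    rw [mem_Icc]
    omega

theorem card_par (d : Bool) (i : ℕ) : ∀ N : ℕ, (par d N i).card = od d i N := by
  induction i with
  | zero => intro N; simp [par, od]
  | succ i ih =>
    intro N
    have h1 : od d (i + 1) N = od d i (T d N) + N % 2 := by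
      unfold od
      rw [sum_range_succ']
      simp only [Function.iterate_succ_apply, Function.iterate_zero, id_eq]
    rw [h1]
    rcases Nat.mod_two_eq_zero_or_one N with h | h
    · rw [par_succ_even d i h, ih, h]
      rfl
    · rw [par_succ_odd d i h, card_insert_of_notMem (not_mem_top (par_subset d _ i)), ih, h]

theorem iter_formula (d : Bool) (i : ℕ) : ∀ N : ℕ,
    2 ^ i * ((T d)^[i] N : ℤ) = 3 ^ (par d N i).card * (N : ℤ) + sg d * num i (par d N i) := by
  induction i with
  | zero => intro N; simp [par, num]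
  | succ i ih =>
    intro N
    rw [Function.iterate_succ_apply]
    have h1 := ih (T d N)
    have h2 : (2 : ℤ) ^ (i + 1) * ((T d)^[i] (T d N) : ℤ) =
        2 * (3 ^ (par d (T d N) i).card * (T d N : ℤ) + sg d * num i (par d (T d N) i)) := by
      rw [← h1, pow_succ]; ring
    rw [h2]
    rcases Nat.mod_two_eq_zero_or_one N with h | h
    · rw [par_succ_even d i h, num_succ (par_subset d _ i)]
      have h3 := two_T_even d h
      push_cast
      linear_combination (3 : ℤ) ^ (par d (T d N) i).card * h3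
    · rw [par_succ_odd d i h, card_insert_of_notMem (not_mem_top (par_subset d _ i)),
        num_insert (par_subset d _ i)]
      have h3 := two_T_odd d h
      push_cast
      rw [pow_succ]
      linear_combination (3 : ℤ) ^ (par d (T d N) i).card * h3

theorem sg_odd (d : Bool) : Odd (sg d) := by
  unfold sg
  cases d <;> decide

theorem converse (d : Bool) (i : ℕ) : ∀ (N M : ℕ) (S : Finset ℕ), S ⊆ Icc 1 i →
    2 ^ i * (M : ℤ) = 3 ^ S.card * (N : ℤ) + sg d * num i S → (T d)^[i] N = M ∧ par d N i = S := by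
  induction i with
  | zero =>
    intro N M S hS h
    have hS0 : S = ∅ := by
      rw [← subset_empty]
      simpa using hS
    subst hS0
    simp [num] at h
    simp [par, h]
  | succ i ih =>
    intro N M S hS h
    rcases split_top hS with hS' | ⟨S', hS', rfl⟩
    · rw [num_succ hS'] at h
      have hN : N % 2 = 0 := by
        rcases Nat.mod_two_eq_zero_or_one N with h' | h'
        · exact h'
        · exfalso
          have h1 : Odd ((3 : ℤ) ^ S.card * (N : ℤ)) := by
            apply Odd.mul
            · exact Odd.pow (by decide)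
            · exact_mod_cast Nat.odd_iff.2 h'
          have h2 : Even ((3 : ℤ) ^ S.card * (N : ℤ)) := by
            have h3 : (3 : ℤ) ^ S.card * (N : ℤ) = 2 * (2 ^ i * M - sg d * num i S) := by
              push_cast at h
              rw [pow_succ] at h
              linarith
            rw [h3]; exact even_two_mul _
          exact (Int.not_even_iff_odd.2 h1) h2
      have h3 := two_T_even d hN
      have h4 : 2 ^ i * (M : ℤ) = 3 ^ S.card * (T d N : ℤ) + sg d * num i S := by
        push_cast at h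
        rw [pow_succ, ← h3] at h
        linarith
      obtain ⟨h5, h6⟩ := ih (T d N) M S hS' h4
      refine ⟨?_, ?_⟩
      · rw [Function.iterate_succ_apply]; exact h5
      · rw [par_succ_even d i hN]; exact h6
    · rw [num_insert hS', card_insert_of_notMem (not_mem_top hS')] at h
      push_cast at h
      have hN : N % 2 = 1 := by
        rcases Nat.mod_two_eq_zero_or_one N with h' | h'
        swap
        · exact h'
        · exfalso
          have h1 : Odd ((3 : ℤ) ^ S'.card * (3 * (N : ℤ) + sg d)) := by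
            apply Odd.mul
            · exact Odd.pow (by decide)
            · apply Even.add_odd _ (sg_odd d)
              apply Even.mul_left
              exact_mod_cast Nat.even_iff.2 h'
          have h2 : Even ((3 : ℤ) ^ S'.card * (3 * (N : ℤ) + sg d)) := by
            have h3 : (3 : ℤ) ^ S'.card * (3 * (N : ℤ) + sg d) =
                2 * (2 ^ i * M - sg d * num i S') := by
              rw [pow_succ, pow_succ] at h
              linarith
            rw [h3]; exact even_two_mul _
          exact (Int.not_even_iff_odd.2 h1) h2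
      have h3 := two_T_odd d hN
      have h4 : 2 ^ i * (M : ℤ) = 3 ^ S'.card * (T d N : ℤ) + sg d * num i S' := by
        have h5 : 2 * (2 ^ i * (M : ℤ)) = 2 * (3 ^ S'.card * (T d N : ℤ) + sg d * num i S') := by
          calc 2 * (2 ^ i * (M : ℤ)) = 2 ^ (i + 1) * M := by rw [pow_succ]; ring
            _ = 3 ^ S'.card * (3 * N + sg d) + 2 * (sg d * num i S') := by
                rw [h, pow_succ]; ring
            _ = _ := by rw [← h3]; ring
        linarith
      obtain ⟨h5, h6⟩ := ih (T d N) M S' hS' h4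
      refine ⟨?_, ?_⟩
      · rw [Function.iterate_succ_apply]; exact h5
      · rw [par_succ_odd d i hN, h6]

theorem num_le (i : ℕ) : ∀ S : Finset ℕ, S ⊆ Icc 1 i →
    num i S + 2 ^ i ≤ 3 ^ S.card * 2 ^ i := by
  induction i with
  | zero =>
    intro S hS
    have hS0 : S = ∅ := by
      rw [← subset_empty]
      simpa using hS
    subst hS0
    simp [num]
  | succ i ih =>
    intro S hS
    rcases split_top hS with hS' | ⟨S', hS', rfl⟩
    · rw [num_succ hS']
      have := ih S hS'
      rw [pow_succ]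
      nlinarith
    · rw [num_insert hS', card_insert_of_notMem (not_mem_top hS')]
      have h1 := ih S' hS'
      have h2 : 1 ≤ 2 ^ i := Nat.one_le_two_pow
      have h3 : 3 ^ S'.card ≤ 3 ^ S'.card * 2 ^ i := Nat.le_mul_of_pos_right _ (by omega)
      rw [pow_succ, pow_succ]
      nlinarith

theorem xz_num (i k : ℕ) (S : Finset ℕ) (hS : S ⊆ Icc 1 i) :
    (2 : ZMod (3 ^ k)) ^ i * xz (3 ^ k) S = (num i S : ZMod (3 ^ k)) := by
  unfold xz num
  rw [mul_sum]
  push_cast
  apply sum_congr rfl
  intro x hx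
  have h1 := mem_Icc.1 (hS hx)
  have h2 : (2 : ZMod (3 ^ k)) * (2 : ZMod (3 ^ k))⁻¹ = 1 := by
    have h3 := ZMod.coe_mul_inv_eq_one (n := 3 ^ k) 2 (by
      apply Nat.Coprime.pow_right
      decide)
    exact_mod_cast h3
  have h4 : (2 : ZMod (3 ^ k)) ^ i = 2 ^ (i - x) * 2 ^ x := by
    rw [← pow_add]; congr 1; omega
  rw [h4]
  have h5 : (2 : ZMod (3 ^ k)) ^ x * (2 : ZMod (3 ^ k))⁻¹ ^ x = 1 := by
    rw [← mul_pow, h2, one_pow]
  calc (2 : ZMod (3 ^ k)) ^ (i - x) * 2 ^ x * (3 ^ rk S x * (2 : ZMod (3 ^ k))⁻¹ ^ x)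
      = 3 ^ rk S x * 2 ^ (i - x) * (2 ^ x * (2 : ZMod (3 ^ k))⁻¹ ^ x) := by ring
    _ = 3 ^ rk S x * 2 ^ (i - x) := by rw [h5, mul_one]

theorem dyn : DynStatement :=
  ⟨fun d N i => ⟨par_subset d N i, card_par d i N, iter_formula d i N⟩,
    fun d N M i S hS h => converse d i N M S hS h, fun i S hS => num_le i S hS,
    fun i k S hS => xz_num i k S hS⟩

end Pool.Agent.Lib.MP_0a5adf_nt.H30
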